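import Pool.Agent.H32.N6H.Targets

/-!
# The choice of the local hyperplane through a point
-/

set_option autoImplicit false

open Polynomial Matrix NumberField IsDedekindDomain Pool.Agent.H32.QC Pool.Agent.H34.N6
  Pool.Agent.H32.N6H

namespace Pool.Agent.H67.N6H

theorem pf_OPC : T_OPC := by
  intro F _ n hn A B P _ _ _ _ hP hli
  obtain ⟨i, hi⟩ := hP
  set S : Submodule F (Fin (n + 1) → F) := Submodule.span F (Set.range ![A *ᵥ P, B *ᵥ P]) with hS
  -- the hyperplane
  let φ : (Fin (n + 1) → F) →ₗ[F] F :=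
    { toFun := fun l => l ⬝ᵥ P
      map_add' := fun x y => add_dotProduct x y P
      map_smul' := fun c x => by rw [smul_dotProduct, RingHom.id_apply] }
  have hV : ¬ LinearMap.ker φ ≤ S := by
    intro h
    have h1 := Submodule.finrank_mono h
    have h2 : Module.finrank F S ≤ 2 := by
      have := finrank_range_le_card (R := F) ![A *ᵥ P, B *ᵥ P]
      rwa [Set.finrank, Fintype.card_fin] at this
    have h3 := φ.finrank_range_add_finrank_ker
    rw [Module.finrank_fintype_fun_eq_card, Fintype.card_fin] at h3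
    have h4 : Module.finrank F (LinearMap.range φ) ≤ 1 := by
      have := Submodule.finrank_le (LinearMap.range φ)
      rwa [Module.finrank_self] at this
    omega
  obtain ⟨u, hu, huS⟩ := SetLike.not_le_iff_exists.1 hV
  have hu' : u ⬝ᵥ P = 0 := hu
  -- a vector whose first coordinate is not zero
  obtain ⟨w, hw, hw0⟩ : ∃ w : Fin (n + 1) → F, w ⬝ᵥ P = 0 ∧ w 0 ≠ 0 := by
    refine ⟨Pi.single 0 (-1) + Pi.single i.succ (P 0 / P i.succ), ?_, ?_⟩
    · rw [add_dotProduct, single_dotProduct, single_dotProduct]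
      field_simp
      ring
    · rw [Pi.add_apply, Pi.single_eq_same, Pi.single_eq_of_ne (Fin.succ_ne_zero i).symm, add_zero]
      exact neg_ne_zero.2 one_ne_zero
  obtain ⟨l, hl, hl0, hlS⟩ : ∃ l : Fin (n + 1) → F, l ⬝ᵥ P = 0 ∧ l 0 ≠ 0 ∧ l ∉ S := by
    by_cases h0 : u 0 = 0
    · by_cases hwS : w ∈ S
      · refine ⟨u + w, ?_, ?_, ?_⟩
        · rw [add_dotProduct, hu', hw, add_zero]
        · rw [Pi.add_apply, h0, zero_add]
          exact hw0
        · intro h
          apply huS
          have := S.sub_mem h hwS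
          rwa [add_sub_cancel_right] at this
      · exact ⟨w, hw, hw0, hwS⟩
    · exact ⟨u, hu', h0, huS⟩
  obtain ⟨s, hs, hs0⟩ : ∃ s : F, s * l 0 = -1 ∧ s ≠ 0 := by
    refine ⟨-(l 0)⁻¹, ?_, neg_ne_zero.2 (inv_ne_zero hl0)⟩
    rw [neg_mul, inv_mul_cancel₀ hl0]
  have hlf : lf (fun j : Fin n => s * l j.succ) = s • l := by
    ext j
    refine Fin.cases ?_ (fun j => ?_) j
    · change (-1 : F) = s * l 0
      rw [hs]
    · rfl
  refine ⟨fun j => s * l j.succ, ?_, ?_⟩
  · rw [hlf, smul_dotProduct, hl, smul_zero]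
  · rw [hlf]
    have h1 : ![A *ᵥ P, B *ᵥ P, s • l] =
        (Fin.snoc (α := fun _ => Fin (n + 1) → F) ![A *ᵥ P, B *ᵥ P] (s • l)) := by
      ext j
      fin_cases j <;> rfl
    rw [h1, linearIndependent_finSnoc]
    refine ⟨hli, fun h => hlS ?_⟩
    have := S.smul_mem s⁻¹ h
    rwa [smul_smul, inv_mul_cancel₀ hs0, one_smul] at this

end Pool.Agent.H67.N6H
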