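import Pool.Agent.H32.N6H.Targets

/-!
# Points on the sections near a given one: the implicit function theorem
-/

set_option autoImplicit false

open Polynomial Matrix NumberField IsDedekindDomain Pool.Agent.H32.QC Pool.Agent.H34.N6
  Pool.Agent.H32.N6H

namespace Pool.Agent.H67.N6H

open Topology

section
variable {F : Type} [NontriviallyNormedField F] [CompleteSpace F]

/-- the dot product as a continuous bilinear map -/
noncomputable def bd (F : Type) [NontriviallyNormedField F] (m : ℕ) :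
    (Fin m → F) →L[F] (Fin m → F) →L[F] F :=
  ∑ i : Fin m, ContinuousLinearMap.smulRight
    (ContinuousLinearMap.proj i : (Fin m → F) →L[F] F)
    (ContinuousLinearMap.proj i : (Fin m → F) →L[F] F)

omit [CompleteSpace F] in
theorem bd_apply {m : ℕ} (x y : Fin m → F) : bd F m x y = x ⬝ᵥ y := by
  unfold bd
  simp only [_root_.sum_apply, ContinuousLinearMap.smulRight_apply,
    _root_.smul_apply, ContinuousLinearMap.proj_apply, smul_eq_mul]
  rfl

/-- the linear map of a matrix -/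
noncomputable def ml {m : ℕ} (A : Matrix (Fin m) (Fin m) F) : (Fin m → F) →L[F] (Fin m → F) :=
  LinearMap.toContinuousLinearMap A.mulVecLin

theorem ml_apply {m : ℕ} (A : Matrix (Fin m) (Fin m) F) (x : Fin m → F) : ml A x = A *ᵥ x := rfl

/-- the tail of a vector -/
noncomputable def tl (F : Type) [NontriviallyNormedField F] (n : ℕ) :
    (Fin (n + 1) → F) →L[F] (Fin n → F) :=
  ContinuousLinearMap.pi fun i => ContinuousLinearMap.proj i.succ

omit [CompleteSpace F] in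
theorem tl_apply {n : ℕ} (x : Fin (n + 1) → F) (i : Fin n) : tl F n x i = x i.succ := rfl

omit [CompleteSpace F] in
theorem lf_dot {n : ℕ} (c : Fin n → F) (x : Fin (n + 1) → F) :
    lf c ⬝ᵥ x = -x 0 + bd F n c (tl F n x) := by
  rw [bd_apply, lf]
  unfold dotProduct
  rw [Fin.sum_univ_succ]
  simp [tl_apply]

/-- the map -/
noncomputable def Ps {n : ℕ} (A B : Matrix (Fin (n + 1)) (Fin (n + 1)) F)
    (p : (Fin (n + 1) → F) × (Fin n → F)) : F × F × F × (Fin n → F) :=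
  (bd F (n + 1) p.1 (ml A p.1), bd F (n + 1) p.1 (ml B p.1),
    -p.1 0 + bd F n p.2 (tl F n p.1), p.2)

theorem quad_strict {n : ℕ} (A : Matrix (Fin (n + 1)) (Fin (n + 1)) F) (hA : A.IsSymm)
    (P : Fin (n + 1) → F) (c : Fin n → F) :
    ∃ f' : (Fin (n + 1) → F) × (Fin n → F) →L[F] F,
      HasStrictFDerivAt (fun p : (Fin (n + 1) → F) × (Fin n → F) => bd F (n + 1) p.1 (ml A p.1))
        f' (P, c) ∧ ∀ q, f' q = 2 * ((A *ᵥ P) ⬝ᵥ q.1) := by
  have h1 : HasStrictFDerivAt (fun p : (Fin (n + 1) → F) × (Fin n → F) => p.1)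
      (ContinuousLinearMap.fst F (Fin (n + 1) → F) (Fin n → F)) (P, c) := hasStrictFDerivAt_fst
  have h2 : HasStrictFDerivAt (fun p : (Fin (n + 1) → F) × (Fin n → F) => ml A p.1)
      ((ml A).comp (ContinuousLinearMap.fst F (Fin (n + 1) → F) (Fin n → F))) (P, c) :=
    (ml A).hasStrictFDerivAt.comp (P, c) h1
  refine ⟨_, (bd F (n + 1)).hasStrictFDerivAt_of_bilinear h1 h2, fun q => ?_⟩
  change bd F (n + 1) P (ml A q.1) + bd F (n + 1) q.1 (ml A P) = _
  rw [bd_apply, bd_apply, ml_apply, ml_apply]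
  have h3 : P ⬝ᵥ (A *ᵥ q.1) = (A *ᵥ P) ⬝ᵥ q.1 := by
    rw [dotProduct_mulVec, ← mulVec_transpose, hA]
  have h4 : q.1 ⬝ᵥ (A *ᵥ P) = (A *ᵥ P) ⬝ᵥ q.1 := dotProduct_comm _ _
  rw [h3, h4]
  ring

omit [CompleteSpace F] in
theorem lin_strict {n : ℕ} (P : Fin (n + 1) → F) (c : Fin n → F) :
    ∃ f' : (Fin (n + 1) → F) × (Fin n → F) →L[F] F,
      HasStrictFDerivAt (fun p : (Fin (n + 1) → F) × (Fin n → F) =>
        -p.1 0 + bd F n p.2 (tl F n p.1)) f' (P, c) ∧
        ∀ q, f' q = lf c ⬝ᵥ q.1 + q.2 ⬝ᵥ tl F n P := by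
  have h1 : HasStrictFDerivAt (fun p : (Fin (n + 1) → F) × (Fin n → F) => p.2)
      (ContinuousLinearMap.snd F (Fin (n + 1) → F) (Fin n → F)) (P, c) := hasStrictFDerivAt_snd
  have h0 : HasStrictFDerivAt (fun p : (Fin (n + 1) → F) × (Fin n → F) => p.1)
      (ContinuousLinearMap.fst F (Fin (n + 1) → F) (Fin n → F)) (P, c) := hasStrictFDerivAt_fst
  have h2 : HasStrictFDerivAt (fun p : (Fin (n + 1) → F) × (Fin n → F) => tl F n p.1)
      ((tl F n).comp (ContinuousLinearMap.fst F (Fin (n + 1) → F) (Fin n → F))) (P, c) :=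
    (tl F n).hasStrictFDerivAt.comp (P, c) h0
  have h3 : HasStrictFDerivAt (fun p : (Fin (n + 1) → F) × (Fin n → F) => p.1 0)
      ((ContinuousLinearMap.proj (0 : Fin (n + 1)) : (Fin (n + 1) → F) →L[F] F).comp
        (ContinuousLinearMap.fst F (Fin (n + 1) → F) (Fin n → F))) (P, c) :=
    (ContinuousLinearMap.proj (0 : Fin (n + 1)) :
      (Fin (n + 1) → F) →L[F] F).hasStrictFDerivAt.comp (P, c) h0
  refine ⟨_, h3.neg.add ((bd F n).hasStrictFDerivAt_of_bilinear h1 h2), fun q => ?_⟩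
  rw [lf_dot]
  change -(q.1 0) + (bd F n c (tl F n q.1) + bd F n q.2 (tl F n P)) = _
  rw [bd_apply q.2]
  ring

omit [CompleteSpace F] in
theorem onto3 {n : ℕ} {a b l : Fin (n + 1) → F} (h : LinearIndependent F ![a, b, l])
    (r s t : F) : ∃ x : Fin (n + 1) → F, a ⬝ᵥ x = r ∧ b ⬝ᵥ x = s ∧ l ⬝ᵥ x = t := by
  let M : Matrix (Fin 3) (Fin (n + 1)) F := Matrix.of ![a, b, l]
  have h1 : M.rank = 3 := by
    have := LinearIndependent.rank_matrix (M := M) h
    rwa [Fintype.card_fin] at this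
  have h2 : LinearMap.range M.mulVecLin = ⊤ := by
    apply Submodule.eq_top_of_finrank_eq
    rw [Module.finrank_fintype_fun_eq_card, Fintype.card_fin]
    exact h1
  obtain ⟨x, hx⟩ := LinearMap.range_eq_top.1 h2 ![r, s, t]
  have hx' : M *ᵥ x = ![r, s, t] := hx
  exact ⟨x, congrFun hx' 0, congrFun hx' 1, congrFun hx' 2⟩

end

theorem pf_OPI : T_OPI := by
  intro F _ _ n A B P c h2 hA hB hP hPA hPB hlP hli
  obtain ⟨fA, hfA, eA⟩ := quad_strict A hA P c
  obtain ⟨fB, hfB, eB⟩ := quad_strict B hB P c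
  obtain ⟨fl, hfl, el⟩ := lin_strict P c
  have hfc : HasStrictFDerivAt (fun p : (Fin (n + 1) → F) × (Fin n → F) => p.2)
      (ContinuousLinearMap.snd F (Fin (n + 1) → F) (Fin n → F)) (P, c) := hasStrictFDerivAt_snd
  have hPs : HasStrictFDerivAt (Ps A B)
      (fA.prod (fB.prod (fl.prod (ContinuousLinearMap.snd F (Fin (n + 1) → F) (Fin n → F)))))
      (P, c) := hfA.prodMk (hfB.prodMk (hfl.prodMk hfc))
  have hsurj : LinearMap.range
      (fA.prod (fB.prod (fl.prod (ContinuousLinearMap.snd F (Fin (n + 1) → F) (Fin n → F)))) :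
        (Fin (n + 1) → F) × (Fin n → F) →ₗ[F] F × F × F × (Fin n → F)) = ⊤ := by
    rw [LinearMap.range_eq_top]
    rintro ⟨r, s, t, g⟩
    obtain ⟨x, hx1, hx2, hx3⟩ := onto3 hli (r / 2) (s / 2) (t - g ⬝ᵥ tl F n P)
    refine ⟨(x, g), ?_⟩
    change (fA (x, g), fB (x, g), fl (x, g), g) = (r, s, t, g)
    rw [eA, eB, el]
    simp only
    rw [hx1, hx2, hx3, mul_div_cancel₀ _ h2, mul_div_cancel₀ _ h2, sub_add_cancel]
  have hmap := hPs.map_nhds_eq_of_surj hsurj
  have hval : Ps A B (P, c) = (0, 0, 0, c) := by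
    unfold Ps
    simp only [bd_apply, ml_apply]
    rw [hPA, hPB, ← bd_apply, ← lf_dot, hlP]
  have hU : {p : (Fin (n + 1) → F) × (Fin n → F) | p.1 ≠ 0} ∈ 𝓝 (P, c) :=
    (isOpen_ne.preimage continuous_fst).mem_nhds hP
  have hI : Ps A B '' {p : (Fin (n + 1) → F) × (Fin n → F) | p.1 ≠ 0} ∈ 𝓝 (0, 0, 0, c) := by
    rw [← hval, ← hmap]
    exact Filter.image_mem_map hU
  have hcont : Continuous fun c' : Fin n → F => ((0, 0, 0, c') : F × F × F × (Fin n → F)) := by
    fun_prop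
  obtain ⟨e, he, hball⟩ := Metric.mem_nhds_iff.1 (hcont.continuousAt.preimage_mem_nhds hI)
  refine ⟨e, he, fun c' hc' => ?_⟩
  have hmem : c' ∈ Metric.ball c e := by
    rw [Metric.mem_ball, dist_pi_lt_iff he]
    intro i
    rw [dist_eq_norm]
    exact hc' i
  obtain ⟨⟨x, c''⟩, hx0, hx⟩ := hball hmem
  have hx0' : x ≠ 0 := hx0
  unfold Ps at hx
  simp only [bd_apply, ml_apply, Prod.mk.injEq] at hx
  obtain ⟨hxA, hxB, hxl, hcc⟩ := hx
  subst hcc
  have hE : Ec c'' *ᵥ (tl F n x) = x := by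
    ext j
    refine Fin.cases ?_ (fun j => ?_) j
    · change c'' ⬝ᵥ tl F n x = x 0
      linear_combination hxl
    · change (1 : Matrix (Fin n) (Fin n) F) j ⬝ᵥ tl F n x = x j.succ
      rw [← tl_apply x j]
      have := congrFun (one_mulVec (tl F n x)) j
      exact this
  have hsec : ∀ D : Matrix (Fin (n + 1)) (Fin (n + 1)) F,
      tl F n x ⬝ᵥ (sec c'' D *ᵥ tl F n x) = x ⬝ᵥ (D *ᵥ x) := by
    intro D
    unfold sec
    rw [← mulVec_mulVec, ← mulVec_mulVec, hE, dotProduct_mulVec, vecMul_transpose, hE]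
  refine ⟨tl F n x, ?_, ?_, ?_⟩
  · intro h
    apply hx0'
    rw [← hE, h, mulVec_zero]
  · rw [hsec, hxA]
  · rw [hsec, hxB]

end Pool.Agent.H67.N6H
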